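import Pool.Agent.Helper6.EC_B.Basic

open MeasureTheory Filter Topology Set

noncomputable section

namespace EC237.PB.PkREPB

theorem inner_eq (x q : ℝ) (hq : 0 < q) :
    ∫ ξ in (0:ℝ)..x, ξ * Real.exp (-(ξ ^ 2 * q)) = (1 - Real.exp (-(x ^ 2 * q))) / (2 * q) := by
  have hd : ∀ ξ ∈ uIcc (0:ℝ) x, HasDerivAt (fun ξ : ℝ => -Real.exp (-(ξ ^ 2 * q)) / (2 * q))
      (ξ * Real.exp (-(ξ ^ 2 * q))) ξ := by
    intro ξ _
    have h1 : HasDerivAt (fun ξ : ℝ => -(ξ ^ 2 * q)) (-(2 * ξ * q)) ξ := by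
      have := ((hasDerivAt_pow 2 ξ).mul_const q).neg
      refine this.congr_deriv ?_
      norm_num
    refine (h1.exp.neg.div_const (2 * q)).congr_deriv ?_
    field_simp
  rw [intervalIntegral.integral_eq_sub_of_hasDerivAt hd
    (Continuous.intervalIntegrable (by fun_prop) _ _)]
  simp
  ring

theorem one_sub_exp_le (y : ℝ) : 1 - Real.exp (-y) ≤ y := by
  have := Real.add_one_le_exp (-y)
  linarith

theorem int_on (repr : G_REPR) (was : G_WAS) (x : ℝ) :
    IntegrableOn (fun q => (1 - Real.exp (-(x ^ 2 * q))) * (Wf q / (2 * q))) (Ioi 0) := by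
  obtain ⟨hm, h0, C, hC1, hC2⟩ := was
  have hmeas : Measurable (fun q => (1 - Real.exp (-(x ^ 2 * q))) * (Wf q / (2 * q))) := by
    refine Measurable.mul (by fun_prop) (hm.div (by fun_prop))
  have hnn : ∀ q : ℝ, 0 < q → 0 ≤ 1 - Real.exp (-(x ^ 2 * q)) := by
    intro q hq
    have : Real.exp (-(x ^ 2 * q)) ≤ 1 := by
      rw [Real.exp_le_one_iff]
      have := sq_nonneg x
      nlinarith
    linarith
  have hsplit : Ioi (0:ℝ) = Ioc 0 1 ∪ Ioi 1 := (Ioc_union_Ioi_eq_Ioi zero_le_one).symm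
  rw [hsplit, integrableOn_union]
  constructor
  · have h1 := ((repr 1 one_pos).1.mono_set (fun q (hq : q ∈ Ioc (0:ℝ) 1) => hq.1)).const_mul
      (x ^ 2 / 2 * Real.exp 1)
    refine Integrable.mono' h1 hmeas.aestronglyMeasurable ?_
    rw [ae_restrict_iff' measurableSet_Ioc]
    filter_upwards with q hq
    have hq0 : 0 < q := hq.1
    have hW := h0 q
    rw [Real.norm_eq_abs, abs_of_nonneg (mul_nonneg (hnn q hq0) (by positivity))]
    calc (1 - Real.exp (-(x ^ 2 * q))) * (Wf q / (2 * q))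
        ≤ (x ^ 2 * q) * (Wf q / (2 * q)) := by
          gcongr
          exact one_sub_exp_le _
      _ = x ^ 2 / 2 * 1 * Wf q := by field_simp
      _ ≤ x ^ 2 / 2 * (Real.exp 1 * Real.exp (-(1 ^ 2 * q))) * Wf q := by
          gcongr
          rw [← Real.exp_add]
          apply Real.one_le_exp
          have := hq.2
          linarith
      _ = x ^ 2 / 2 * Real.exp 1 * (Real.exp (-(1 ^ 2 * q)) * Wf q) := by ring
  · have h1 : IntegrableOn (fun q : ℝ => C / 2 * q ^ (-2 : ℝ)) (Ioi 1) :=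
      (integrableOn_Ioi_rpow_of_lt (by norm_num) one_pos).const_mul _
    refine Integrable.mono' h1 hmeas.aestronglyMeasurable ?_
    rw [ae_restrict_iff' measurableSet_Ioi]
    filter_upwards with q hq
    have hq1 : (1:ℝ) < q := hq
    have hq0 : 0 < q := by linarith
    have hW := h0 q
    rw [Real.norm_eq_abs, abs_of_nonneg (mul_nonneg (hnn q hq0) (by positivity))]
    have h2 : q ^ (-2 : ℝ) = 1 / q ^ 2 := by
      rw [Real.rpow_neg hq0.le]
      norm_num
    rw [h2]
    calc (1 - Real.exp (-(x ^ 2 * q))) * (Wf q / (2 * q))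
        ≤ 1 * ((C / q) / (2 * q)) := by
          have h3 := hC2 q hq1.le
          have h4 := Real.exp_pos (-(x ^ 2 * q))
          gcongr
          linarith
      _ = C / 2 * (1 / q ^ 2) := by field_simp

theorem thm (repr : G_REPR) (was : G_WAS) : G_REPB := by
  intro x hx
  have hint := int_on repr was x
  refine ⟨hint, ?_⟩
  obtain ⟨hm, h0, -⟩ := was
  have hF : Measurable (fun p : ℝ × ℝ => p.2 * Real.exp (-(p.2 ^ 2 * p.1)) * Wf p.1) := by
    refine Measurable.mul (by fun_prop) (hm.comp measurable_fst)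
  have hin : ∀ q : ℝ, 0 < q → ∫ ξ in Ioc (0:ℝ) x, ξ * Real.exp (-(ξ ^ 2 * q)) * Wf q =
      (1 - Real.exp (-(x ^ 2 * q))) * (Wf q / (2 * q)) := by
    intro q hq
    rw [integral_mul_const, ← intervalIntegral.integral_of_le hx.le, inner_eq x q hq]
    ring
  have hprod : Integrable (fun p : ℝ × ℝ => p.2 * Real.exp (-(p.2 ^ 2 * p.1)) * Wf p.1)
      ((volume.restrict (Ioi (0:ℝ))).prod (volume.restrict (Ioc (0:ℝ) x))) := by
    rw [integrable_prod_iff hF.aestronglyMeasurable]
    constructor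
    · filter_upwards with q
      refine Integrable.mul_const ?_ _
      exact (Continuous.integrableOn_Icc (by fun_prop)).mono_set Ioc_subset_Icc_self
    · refine hint.congr ?_
      rw [EventuallyEq, ae_restrict_iff' measurableSet_Ioi]
      filter_upwards with q hq
      rw [← hin q hq]
      refine setIntegral_congr_fun measurableSet_Ioc fun ξ hξ => ?_
      have h1 : 0 ≤ ξ := hξ.1.le
      have h2 := h0 q
      rw [Real.norm_eq_abs, abs_of_nonneg (by positivity)]
  have hswap := integral_integral_swap (f := fun q ξ : ℝ => ξ * Real.exp (-(ξ ^ 2 * q)) * Wf q)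
    hprod
  have hL : ∫ q in Ioi (0:ℝ), (1 - Real.exp (-(x ^ 2 * q))) * (Wf q / (2 * q)) =
      ∫ q in Ioi (0:ℝ), ∫ ξ in Ioc (0:ℝ) x, ξ * Real.exp (-(ξ ^ 2 * q)) * Wf q := by
    refine setIntegral_congr_fun measurableSet_Ioi fun q hq => ?_
    exact (hin q hq).symm
  rw [hL, hswap, bb, intervalIntegral.integral_of_le hx.le]
  refine setIntegral_congr_fun measurableSet_Ioc fun ξ hξ => ?_
  have h1 := (repr ξ hξ.1).2
  rw [← h1, ← integral_mul_const]
  refine integral_congr_ae ?_
  filter_upwards with q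
  ring

end EC237.PB.PkREPB
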